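import Pool.Agent.X181.BH.Fin

/-!
# MP_b19ca0_gt, Q1 (disproof)

The open unit disk with `d = h + m` (Hilbert metric plus taxicab metric) does not have
nonpositive curvature in the sense of Busemann: at `(3/5, 0)` the inequality
`2 d(p,q) ≤ d(y,z)` fails in every neighbourhood.
-/

set_option autoImplicit false

namespace Pool.Agent.Results.MP_b19ca0_gt.HilbertTaxicab

open Pool.Agent.X181.BH

/-- The disk with the Hilbert metric plus the taxicab metric is not nonpositively curved. -/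
theorem result : (∃ h, IsHilbert h) ∧
    ∀ h, IsHilbert h → ¬ BusemannNPC (fun x y => h x y + taxi x y) := by
  refine ⟨⟨hf, hf_isHilbert⟩, fun h hh hB => not_npc ?_⟩
  intro c hc
  obtain ⟨r, hr, H⟩ := hB c hc
  have seg : ∀ x ∈ M, ∀ y ∈ M, ∀ p ∈ segment ℝ x y, p ∈ M := by
    intro x hx y hy p hp
    obtain ⟨a, b, ha, hb, hab, rfl⟩ := hp
    have h1 : x.1 ^ 2 + x.2 ^ 2 < 1 := hx
    have h2 : y.1 ^ 2 + y.2 ^ 2 < 1 := hy
    show (a • x + b • y).1 ^ 2 + (a • x + b • y).2 ^ 2 < 1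
    simp only [Prod.fst_add, Prod.snd_add, Prod.smul_fst, Prod.smul_snd, smul_eq_mul]
    have h3 : (a * x.1 + b * y.1) ^ 2 + (a * x.2 + b * y.2) ^ 2 =
        a * (x.1 ^ 2 + x.2 ^ 2) + b * (y.1 ^ 2 + y.2 ^ 2) -
          a * b * ((x.1 - y.1) ^ 2 + (x.2 - y.2) ^ 2) := by
      have : b = 1 - a := by linarith
      rw [this]; ring
    rw [h3]
    have h4 : 0 ≤ a * b * ((x.1 - y.1) ^ 2 + (x.2 - y.2) ^ 2) := by positivity
    rcases ha.eq_or_lt with h0 | h0
    · have hb1 : b = 1 := by linarith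
      rw [← h0, hb1]; linarith
    · nlinarith [mul_pos h0 (by linarith : 0 < 1 - (x.1 ^ 2 + x.2 ^ 2)),
        mul_nonneg hb (by linarith : 0 ≤ 1 - (y.1 ^ 2 + y.2 ^ 2))]
  refine ⟨r, hr, fun x hx y hy z hz hxr hyr hzr p q hp hq => ?_⟩
  have hpM := seg x hx y hy p hp.1
  have hqM := seg x hx z hz q hq.1
  have e : ∀ a ∈ M, ∀ b ∈ M, h a b + taxi a b = dd a b := fun a ha b hb => by
    rw [dd, hilbert_eq hh ha hb]
  have := H x hx y hy z hz hxr hyr hzr p q
    ⟨hp.1, by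
      show h x p + taxi x p = h p y + taxi p y
      rw [e x hx p hpM, e p hpM y hy]; exact hp.2⟩
    ⟨hq.1, by
      show h x q + taxi x q = h q z + taxi q z
      rw [e x hx q hqM, e q hqM z hz]; exact hq.2⟩
  have h2 : 2 * (h p q + taxi p q) ≤ h y z + taxi y z := this
  rwa [e p hpM q hqM, e y hy z hz] at h2

end Pool.Agent.Results.MP_b19ca0_gt.HilbertTaxicab
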